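import Pool.Agent.Y687.JQ.Stm
import Pool.Agent.Y405.CQ.MER

set_option autoImplicit false

/-!
# Project JQ, the statement JMER: Mertens' theorem for the split primes on which a fixed product of
odd primes is not a square
-/

open scoped Classical

namespace Pool.Agent.Y405.JQ

open Finset
open Pool.Agent.Y703.CQ
open scoped NumberTheorySymbols

/-- the additive symbol as a sign -/
def sg (x : ZMod 2) : ℤ := if x = 0 then 1 else -1

theorem sg_add (x y : ZMod 2) : sg (x + y) = sg x * sg y := by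
  revert x y
  unfold sg
  decide

theorem sg_zero : sg 0 = 1 := if_pos rfl

theorem sg_neg (x : ZMod 2) : sg x = -1 ↔ x ≠ 0 := by
  revert x
  unfold sg
  decide

theorem jac_nr (p u : ℕ) (hp : p.Prime) (hu : u.Prime) (hne : p ≠ u) :
    J((u : ℤ) | p) = sg (nr p u) := by
  have : Fact p.Prime := ⟨hp⟩
  rw [← jacobiSym.legendreSym.to_jacobiSym]
  have h0 : ((u : ℤ) : ZMod p) ≠ 0 := by
    rw [Int.cast_natCast]
    intro h
    rw [ZMod.natCast_eq_zero_iff] at h
    exact hne ((Nat.prime_dvd_prime_iff_eq hp hu).mp h)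
  unfold nr
  by_cases hs : IsSquare ((u : ℕ) : ZMod p)
  · rw [if_pos hs, sg_zero, legendreSym.eq_one_iff p h0, Int.cast_natCast]
    exact hs
  · rw [if_neg hs]
    have h1 : legendreSym p (u : ℤ) = -1 := by
      rw [legendreSym.eq_neg_one_iff, Int.cast_natCast]
      exact hs
    rw [h1]
    rfl

theorem jac_sum (p : ℕ) (hp : p.Prime) (e : Finset ℕ) (he : ∀ u ∈ e, u.Prime) (hpe : p ∉ e) :
    J(((∏ u ∈ e, u : ℕ) : ℤ) | p) = sg (∑ u ∈ e, nr p u) := by
  induction e using Finset.induction_on with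
  | empty => rw [prod_empty, sum_empty, sg_zero, Nat.cast_one, jacobiSym.one_left]
  | insert a s ha ih =>
    rw [prod_insert ha, sum_insert ha, sg_add, Nat.cast_mul, jacobiSym.mul_left,
      jac_nr p a hp (he a (mem_insert_self _ _)) fun h => hpe (h ▸ mem_insert_self _ _),
      ih (fun u hu => he u (mem_insert_of_mem hu)) fun h => hpe (mem_insert_of_mem h)]

section count

variable (m : ℕ)

/-- a class with symbol `-1` -/
theorem exists_neg (e : Finset ℕ) (hne : e.Nonempty) (he : ∀ u ∈ e, u.Prime ∧ u ≠ 2 ∧ u ≠ 7)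
    (hm : m = ∏ u ∈ e, u) : ∃ b : ℕ, J((b : ℤ) | m) = -1 := by
  obtain ⟨u, hu⟩ := hne
  have : Fact u.Prime := ⟨(he u hu).1⟩
  have hchar : ringChar (ZMod u) ≠ 2 := by
    rw [ZMod.ringChar_zmod_n]
    exact (he u hu).2.1
  obtain ⟨n, hn⟩ := FiniteField.exists_nonsquare hchar
  have hm' : m = u * ∏ v ∈ e.erase u, v := by
    rw [hm, mul_prod_erase e (fun v => v) hu]
  have hcop : u.Coprime (∏ v ∈ e.erase u, v) := by
    refine Nat.Coprime.prod_right fun v hv => ?_
    rw [mem_erase] at hv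
    exact (Nat.coprime_primes (he u hu).1 (he v hv.2).1).mpr (Ne.symm hv.1)
  obtain ⟨b, hb1, hb2⟩ := Nat.chineseRemainder hcop n.val 1
  have hu0 : u ≠ 0 := (he u hu).1.ne_zero
  have hr0 : ∏ v ∈ e.erase u, v ≠ 0 := prod_ne_zero_iff.mpr fun v hv =>
    (he v (mem_of_mem_erase hv)).1.ne_zero
  refine ⟨b, ?_⟩
  rw [hm', jacobiSym.mul_right' _ hu0 hr0]
  have h1 : J((b : ℤ) | u) = -1 := by
    have h2 : J((b : ℤ) | u) = J((n.val : ℤ) | u) := by
      apply jacobiSym.mod_left'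
      exact_mod_cast hb1
    rw [h2]
    apply ZMod.nonsquare_iff_jacobiSym_eq_neg_one.mpr
    rw [Int.cast_natCast, ZMod.natCast_zmod_val]
    exact hn
  have h3 : J((b : ℤ) | ∏ v ∈ e.erase u, v) = 1 := by
    have h2 : J((b : ℤ) | ∏ v ∈ e.erase u, v) = J(1 | ∏ v ∈ e.erase u, v) := by
      apply jacobiSym.mod_left'
      exact_mod_cast hb2
    rw [h2, jacobiSym.one_left]
  rw [h1, h3]
  norm_num

/-- half of the classes have symbol `-1` -/
theorem card_neg (hm : m ≠ 0) (b : ℕ) (hb : J((b : ℤ) | m) = -1) :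
    2 * ((range m).filter fun a : ℕ => J((a : ℤ) | m) = -1).card = Nat.totient m := by
  have hbm : Nat.Coprime b m := by
    have h1 : J((b : ℤ) | m) ≠ 0 := by rw [hb]; norm_num
    rw [Ne, jacobiSym.eq_zero_iff, not_and_or] at h1
    rcases h1 with h1 | h1
    · exact absurd hm h1
    · rw [not_not, Int.gcd_natCast_natCast] at h1
      exact h1
  have hJ : ∀ a : ℕ, J(((b * a % m : ℕ) : ℤ) | m) = - J((a : ℤ) | m) := by
    intro a
    rw [Int.natCast_mod, ← jacobiSym.mod_left, Nat.cast_mul, jacobiSym.mul_left, hb, neg_one_mul]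
  have hinj : Set.InjOn (fun a => b * a % m) (range m : Set ℕ) := by
    intro x hx y hy hxy
    rw [mem_coe, mem_range] at hx hy
    have h1 : b * x ≡ b * y [MOD m] := hxy
    have h2 : x ≡ y [MOD m] := Nat.ModEq.cancel_left_of_coprime (by
      rw [Nat.gcd_comm]
      exact hbm) h1
    exact h2.eq_of_lt_of_lt hx hy
  have h1 : ((range m).filter fun a : ℕ => J((a : ℤ) | m) = -1).card ≤
      ((range m).filter fun a : ℕ => J((a : ℤ) | m) = 1).card := by
    refine card_le_card_of_injOn (fun a => b * a % m) ?_ (hinj.mono (by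
      intro x hx
      exact (mem_filter.mp hx).1))
    intro a ha
    have ha' := mem_filter.mp ha
    refine mem_coe.mpr (mem_filter.mpr ⟨mem_range.mpr (Nat.mod_lt _ (Nat.pos_of_ne_zero hm)), ?_⟩)
    rw [hJ, ha'.2, neg_neg]
  have h2 : ((range m).filter fun a : ℕ => J((a : ℤ) | m) = 1).card ≤
      ((range m).filter fun a : ℕ => J((a : ℤ) | m) = -1).card := by
    refine card_le_card_of_injOn (fun a => b * a % m) ?_ (hinj.mono (by
      intro x hx
      exact (mem_filter.mp hx).1))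
    intro a ha
    have ha' := mem_filter.mp ha
    refine mem_coe.mpr (mem_filter.mpr ⟨mem_range.mpr (Nat.mod_lt _ (Nat.pos_of_ne_zero hm)), ?_⟩)
    rw [hJ, ha'.2]
  have h3 : Nat.totient m = ((range m).filter fun a : ℕ => J((a : ℤ) | m) = -1).card +
      ((range m).filter fun a : ℕ => J((a : ℤ) | m) = 1).card := by
    rw [← card_union_of_disjoint, Nat.totient_eq_card_coprime]
    · congr 1
      ext a
      rw [mem_union, mem_filter, mem_filter, mem_filter]
      constructor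
      · rintro ⟨g1, g2⟩
        rcases jacobiSym.trichotomy (a : ℤ) m with g3 | g3 | g3
        · rw [jacobiSym.eq_zero_iff, Int.gcd_natCast_natCast, Nat.gcd_comm] at g3
          exact absurd g2 g3.2
        · exact Or.inr ⟨g1, g3⟩
        · exact Or.inl ⟨g1, g3⟩
      · intro h
        have g0 : J((a : ℤ) | m) ≠ 0 := by
          rcases h with ⟨-, g⟩ | ⟨-, g⟩ <;> rw [g] <;> norm_num
        refine ⟨by rcases h with ⟨g, -⟩ | ⟨g, -⟩ <;> exact g, ?_⟩
        rw [Ne, jacobiSym.eq_zero_iff, not_and_or] at g0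
        rcases g0 with g1 | g1
        · exact absurd hm g1
        · rw [not_not, Int.gcd_natCast_natCast, Nat.gcd_comm] at g1
          exact g1
    · rw [disjoint_filter]
      intro a _ g1 g2
      rw [g1] at g2
      norm_num at g2
  omega

/-- the classes -/
noncomputable def AA : Finset ℕ := (range (56 * m)).filter fun a =>
  a % 8 = 1 ∧ (a % 7 = 1 ∨ a % 7 = 2 ∨ a % 7 = 4) ∧ J((a : ℤ) | m) = -1

theorem card_AA (hcop : Nat.Coprime 56 m) :
    (AA m).card = 3 * ((range m).filter fun a : ℕ => J((a : ℤ) | m) = -1).card := by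
  have h3 : ((range 56).filter fun a => a % 8 = 1 ∧ (a % 7 = 1 ∨ a % 7 = 2 ∨ a % 7 = 4)).card = 3 := by
    decide
  rw [← h3, ← card_product]
  have hJ : ∀ a : ℕ, J(((a % m : ℕ) : ℤ) | m) = J((a : ℤ) | m) := by
    intro a
    rw [Int.natCast_mod, ← jacobiSym.mod_left]
  refine card_bij (fun a _ => (a % 56, a % m)) ?_ ?_ ?_
  · intro a ha
    obtain ⟨h1, h2, h4, h5⟩ := mem_filter.mp ha
    have hm0 : 0 < m := by
      rw [mem_range] at h1
      by_contra h
      have : m = 0 := by omega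
      rw [this] at h1
      omega
    rw [mem_product, mem_filter, mem_filter, mem_range, mem_range]
    refine ⟨⟨Nat.mod_lt _ (by norm_num), ?_, ?_⟩, Nat.mod_lt _ hm0, ?_⟩
    · show a % 56 % 8 = 1
      omega
    · show a % 56 % 7 = 1 ∨ a % 56 % 7 = 2 ∨ a % 56 % 7 = 4
      omega
    · show J(((a % m : ℕ) : ℤ) | m) = -1
      rw [hJ, h5]
  · intro a ha b hb hab
    rw [Prod.mk.injEq] at hab
    have h1 : a ≡ b [MOD 56 * m] := (Nat.modEq_and_modEq_iff_modEq_mul hcop).mp hab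
    exact h1.eq_of_lt_of_lt (mem_range.mp (mem_filter.mp ha).1) (mem_range.mp (mem_filter.mp hb).1)
  · rintro ⟨x, y⟩ hxy
    rw [mem_product, mem_filter, mem_filter, mem_range, mem_range] at hxy
    obtain ⟨⟨hx1, hx2, hx3⟩, hy1, hy2⟩ := hxy
    simp only [] at hx1 hx2 hx3 hy1 hy2
    have hm0 : m ≠ 0 := by
      rintro rfl
      exact absurd hy1 (Nat.not_lt_zero _)
    have hlt := Nat.chineseRemainder_lt_mul hcop x y (by norm_num) hm0
    obtain ⟨k, hk⟩ : ∃ k, k = Nat.chineseRemainder hcop x y := ⟨_, rfl⟩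
    rw [← hk] at hlt
    obtain ⟨k, hk1, hk2⟩ := k
    clear hk
    have h56 : k % 56 = x := by
      rw [hk1, Nat.mod_eq_of_lt hx1]
    have hmm : k % m = y := by
      rw [hk2, Nat.mod_eq_of_lt hy1]
    refine ⟨k, mem_filter.mpr ⟨mem_range.mpr hlt, by omega, by omega, ?_⟩, ?_⟩
    · rw [← hJ, hmm, hy2]
    · rw [h56, hmm]

end count

theorem t_JMER : Pool.Agent.Y687.JQ.S_JMER := by
  intro e hne he
  obtain ⟨m, hm⟩ : ∃ m : ℕ, m = ∏ u ∈ e, u := ⟨_, rfl⟩
  have hm0 : m ≠ 0 := by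
    rw [hm]
    exact prod_ne_zero_iff.mpr fun v hv => (he v hv).1.ne_zero
  have hcop : Nat.Coprime 56 m := by
    rw [hm]
    refine Nat.Coprime.prod_right fun u hu => ?_
    obtain ⟨h1, h2, h3⟩ := he u hu
    rw [Nat.coprime_comm, h1.coprime_iff_not_dvd]
    intro h
    have h4 : u ∣ 2 ^ 3 * 7 := h
    rcases h1.dvd_mul.mp h4 with h5 | h5
    · exact h2 ((Nat.prime_dvd_prime_iff_eq h1 Nat.prime_two).mp (h1.dvd_of_dvd_pow h5))
    · exact h3 ((Nat.prime_dvd_prime_iff_eq h1 (by norm_num)).mp h5)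
  have hodd : Odd m := by
    rw [← Nat.not_even_iff_odd, even_iff_two_dvd]
    intro h
    have h1 : 2 ∣ Nat.gcd 56 m := Nat.dvd_gcd (by norm_num) h
    rw [hcop] at h1
    norm_num at h1
  obtain ⟨b, hb⟩ := exists_neg m e hne he hm
  have hcard : 16 * (AA m).card = Nat.totient (56 * m) := by
    have h1 := card_neg m hm0 b hb
    have h2 : Nat.totient 56 = 24 := by decide
    rw [card_AA m hcop, Nat.totient_mul hcop, h2, ← h1]
    ring
  have hQ : 1 ≤ 56 * m := by omega
  have hJc : ∀ a : ℕ, J((a : ℤ) | m) = -1 → Nat.Coprime a m := by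
    intro a ha
    have h1 : J((a : ℤ) | m) ≠ 0 := by rw [ha]; norm_num
    rw [Ne, jacobiSym.eq_zero_iff, not_and_or] at h1
    rcases h1 with h1 | h1
    · exact absurd hm0 h1
    · rw [not_not, Int.gcd_natCast_natCast] at h1
      exact h1
  have hmer : ∀ a ∈ AA m, ∃ C : ℝ, 0 ≤ C ∧ ∀ x : ℕ, 3 ≤ x →
      |∑ p ∈ (Icc 1 x).filter (fun p => p.Prime ∧ p % (56 * m) = a), (1 : ℝ) / p -
        1 / (Nat.totient (56 * m) : ℝ) * Real.log (Real.log x)| ≤ C := by
    intro a ha
    obtain ⟨h1, h2, h3, h4⟩ := mem_filter.mp ha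
    refine Pool.Agent.Y405.CQ.mertens_ap (56 * m) hQ a (mem_range.mp h1) ?_
    refine Nat.Coprime.mul_right ?_ (hJc a h4)
    have h5 : (a % 56).Coprime 56 := by
      have h6 : a % 56 < 56 := Nat.mod_lt _ (by norm_num)
      have h7 : a % 56 % 8 = 1 := by omega
      have h8 : a % 56 % 7 = 1 ∨ a % 56 % 7 = 2 ∨ a % 56 % 7 = 4 := by omega
      generalize a % 56 = r at h6 h7 h8
      revert h8 h7
      revert r
      decide
    rw [Nat.coprime_iff_gcd_eq_one, ← Nat.gcd_rec, Nat.gcd_comm] at h5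
    exact h5
  choose! C hC0 hC using hmer
  refine ⟨∑ a ∈ AA m, C a, fun y hy => ?_⟩
  -- the condition in terms of the class
  have hcond : ∀ p : ℕ, p.Prime → ((Sp p ∧ p ∉ e ∧ ∑ u ∈ e, nr p u ≠ 0) ↔
      p % (56 * m) ∈ AA m) := by
    intro p hp
    have e1 : p % (56 * m) % 8 = p % 8 := Nat.mod_mod_of_dvd _ ⟨7 * m, by ring⟩
    have e2 : p % (56 * m) % 7 = p % 7 := Nat.mod_mod_of_dvd _ ⟨8 * m, by ring⟩
    have e3 : J(((p % (56 * m) : ℕ) : ℤ) | m) = J((p : ℤ) | m) := by
      rw [jacobiSym.mod_left, ← Int.natCast_mod, Nat.mod_mod_of_dvd _ ⟨56, by ring⟩, Int.natCast_mod,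
        ← jacobiSym.mod_left]
    have e4 : p % 8 = 1 → p ∉ e → J((p : ℤ) | m) = sg (∑ u ∈ e, nr p u) := by
      intro g1 g2
      rw [jacobiSym.quadratic_reciprocity_one_mod_four (by omega) hodd, hm]
      exact jac_sum p hp e (fun u hu => (he u hu).1) g2
    rw [AA, mem_filter, mem_range, e1, e2, e3]
    constructor
    · rintro ⟨⟨-, g1, g2⟩, g3, g4⟩
      refine ⟨Nat.mod_lt _ hQ, g1, g2, ?_⟩
      rw [e4 g1 g3, sg_neg]
      exact g4
    · rintro ⟨-, g1, g2, g3⟩
      have g4 : p ∉ e := by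
        intro h
        have h5 := hJc p g3
        have h6 : p ∣ m := by
          rw [hm]
          exact dvd_prod_of_mem _ h
        exact hp.one_lt.ne' (Nat.eq_one_of_dvd_coprimes h5 dvd_rfl h6)
      refine ⟨⟨hp, g1, g2⟩, g4, ?_⟩
      rw [e4 g1 g4, sg_neg] at g3
      exact g3
  have hsum : ∑ p ∈ (range (y + 1)).filter (fun p => Sp p ∧ p ∉ e ∧ ∑ u ∈ e, nr p u ≠ 0),
      (1 : ℝ) / p = ∑ a ∈ AA m, ∑ p ∈ (Icc 1 y).filter
        (fun p => p.Prime ∧ p % (56 * m) = a), (1 : ℝ) / p := by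
    rw [← sum_fiberwise_of_maps_to (s := (range (y + 1)).filter
      (fun p => Sp p ∧ p ∉ e ∧ ∑ u ∈ e, nr p u ≠ 0)) (t := AA m) (g := fun p => p % (56 * m))]
    · refine sum_congr rfl fun a ha => ?_
      refine sum_congr ?_ fun _ _ => rfl
      ext p
      rw [mem_filter, mem_filter, mem_filter, mem_range, mem_Icc]
      constructor
      · rintro ⟨⟨g1, g2⟩, g3⟩
        exact ⟨⟨g2.1.1.one_lt.le, by omega⟩, g2.1.1, g3⟩
      · rintro ⟨⟨g0, g1⟩, g2, g3⟩
        refine ⟨⟨by omega, (hcond p g2).mpr ?_⟩, g3⟩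
        rw [g3]
        exact ha
    · intro p hp
      have hp' := (mem_filter.mp hp).2
      exact (hcond p hp'.1.1).mp hp'
  have hphi : (0 : ℝ) < (Nat.totient (56 * m) : ℝ) := by
    exact_mod_cast Nat.totient_pos.mpr (by omega)
  have hconst : (1 / 16 : ℝ) * Real.log (Real.log y) =
      ∑ a ∈ AA m, 1 / (Nat.totient (56 * m) : ℝ) * Real.log (Real.log y) := by
    rw [sum_const, nsmul_eq_mul, ← mul_assoc]
    congr 1
    have h1 : (16 : ℝ) * ((AA m).card : ℝ) = (Nat.totient (56 * m) : ℝ) := by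
      exact_mod_cast hcard
    rw [← h1]
    have h2 : ((AA m).card : ℝ) ≠ 0 := by
      intro h
      rw [← h1, h, mul_zero] at hphi
      exact lt_irrefl _ hphi
    field_simp
  rw [hsum, hconst, ← sum_sub_distrib]
  exact (abs_sum_le_sum_abs _ _).trans (sum_le_sum fun a ha => hC a ha y hy)

end Pool.Agent.Y405.JQ
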